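import Pool.Agent.T9h49.QS.XUpper

/-!
# Frege refutations with long lines
-/

set_option autoImplicit false
set_option linter.unusedSectionVars false

namespace Pool.Agent.T9h49.QS

open Pool.Agent.T9h49.RK
open Pool.Agent.T9h90.EF
open Pool.Agent.T9h82.SL (parF xorF size_parF vars_parF_sub tsf mem_tsf tsf_size oddF)

/-- the sum of the variables in `S` with numbers from `b * 2 ^ k` to `(b + 1) * 2 ^ k - 1` -/
def PS (S : ℕ → Bool) : ℕ → ℕ → PForm
  | 0, b => bif S b then .var b else ff
  | k + 1, b => xr (PS S k (2 * b)) (PS S k (2 * b + 1))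

theorem size_PS (S : ℕ → Bool) : ∀ k b : ℕ, (PS S k b).size + 2 ≤ 6 * 4 ^ k
  | 0, b => by
      simp only [PS]
      cases S b <;> simp [ff, PForm.size]
  | k + 1, b => by
      have h1 := size_PS S k (2 * b)
      have h2 := size_PS S k (2 * b + 1)
      simp only [PS, xr, PForm.size]
      rw [pow_succ]
      omega

theorem PS_congr {S S' : ℕ → Bool} : ∀ k b : ℕ,
    (∀ i, b * 2 ^ k ≤ i → i < (b + 1) * 2 ^ k → S i = S' i) → PS S k b = PS S' k b
  | 0, b, h => by
      simp only [PS]
      rw [h b (by simp) (by simp)]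
  | k + 1, b, h => by
      have e : 2 ^ (k + 1) = 2 * 2 ^ k := by rw [pow_succ]; ring
      simp only [PS]
      rw [PS_congr k (2 * b) fun i h1 h2 => h i (by rw [e]; nlinarith) (by rw [e]; nlinarith),
        PS_congr k (2 * b + 1) fun i h1 h2 => h i (by rw [e]; nlinarith) (by rw [e]; nlinarith)]

variable {Φ : Set Rule} {κ M : ℕ} {Γ : Set PForm}

/-- the sum of the empty set is false -/
theorem zeroPS (hS : SysX Φ κ) {S : ℕ → Bool} (h0 : ∀ i, S i = false) :
    ∀ k b : ℕ, 6 * 4 ^ k ≤ M → Ded Φ (κ * M) (lc k * κ) Γ {.neg (PS S k b)}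
  | 0, b, hM => by
      refine (hS.z0 (M := M) (by omega)).mono le_rfl (by simp [lc]) (fun _ h => h) ?_
      intro A hA
      simpa [PS, h0 b] using hA
  | k + 1, b, hM => by
      have hM' : 6 * 4 ^ k ≤ M := le_trans (by rw [pow_succ]; omega) hM
      have h1 := zeroPS hS h0 k (2 * b) hM'
      have h2 := zeroPS hS h0 k (2 * b + 1) hM'
      have hA := size_PS S k (2 * b)
      have hB := size_PS S k (2 * b + 1)
      have h3 := hS.z1 (M := M) (by omega) (A := PS S k (2 * b)) (B := PS S k (2 * b + 1))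
        (by omega) (by omega) (Γ := {.neg (PS S k (2 * b))} ∪ {.neg (PS S k (2 * b + 1))})
        (Or.inl rfl) (Or.inr rfl)
      refine ((h1.union h2).cut h3).mono le_rfl ?_ (fun _ h => h) (fun _ h => h)
      simp only [lc]
      exact le_of_eq (by ring)

/-- one variable is added -/
theorem toggle (hS : SysX Φ κ) {S S' : ℕ → Bool} {i : ℕ} (hi : S' i = !S i)
    (hne : ∀ j, j ≠ i → S' j = S j) :
    ∀ k b : ℕ, b * 2 ^ k ≤ i → i < (b + 1) * 2 ^ k → 6 * 4 ^ k ≤ M →
      Ded Φ (κ * M) ((k + 1) * κ) Γ {st true (PS S' k b) (PS S k b) (.var i)}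
  | 0, b, h1, h2, hM => by
      obtain rfl : b = i := by
        simp only [pow_zero, mul_one] at h1 h2
        omega
      simp only [PS]
      rw [hi]
      cases S b
      · refine (hS.y1 (M := M) (by omega) (x := .var b) (by simp [PForm.size]; omega)).mono le_rfl
          (by simp) (fun _ h => h) (fun _ h => h)
      · refine (hS.y2 (M := M) (by omega) (x := .var b) (by simp [PForm.size]; omega)).mono le_rfl
          (by simp) (fun _ h => h) (fun _ h => h)
  | k + 1, b, h1, h2, hM => by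
      have hM' : 6 * 4 ^ k ≤ M := le_trans (by rw [pow_succ]; omega) hM
      have e : 2 ^ (k + 1) = 2 * 2 ^ k := by rw [pow_succ]; ring
      rw [e] at h1 h2
      have a1 := size_PS S k (2 * b)
      have a2 := size_PS S k (2 * b + 1)
      have a3 := size_PS S' k (2 * b)
      have a4 := size_PS S' k (2 * b + 1)
      rcases Nat.lt_or_ge i ((2 * b + 1) * 2 ^ k) with h3 | h3
      · have t1 := toggle hS hi hne k (2 * b) (by nlinarith) h3 hM'
        have e2 : PS S' k (2 * b + 1) = PS S k (2 * b + 1) :=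
          PS_congr k (2 * b + 1) fun j g1 _ => hne j (by
            rintro rfl
            omega)
        have t2 := hS.y3 (M := M) (by omega) (A' := PS S' k (2 * b)) (A := PS S k (2 * b))
          (x := .var i) (B := PS S k (2 * b + 1))
          (Γ := {st true (PS S' k (2 * b)) (PS S k (2 * b)) (.var i)}) (by
            simp only [List.mem_cons, List.not_mem_nil, or_false, forall_eq_or_imp, forall_eq,
              PForm.size]
            refine ⟨by omega, by omega, by omega, by omega⟩) rfl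
        refine (t1.cut t2).mono le_rfl (le_of_eq (by ring)) (fun _ h => h) ?_
        intro A hA
        simpa only [PS, e2] using hA
      · have t1 := toggle hS hi hne k (2 * b + 1) h3 (by nlinarith) hM'
        have e2 : PS S' k (2 * b) = PS S k (2 * b) :=
          PS_congr k (2 * b) fun j _ g2 => hne j (by
            rintro rfl
            omega)
        have t2 := hS.y4 (M := M) (by omega) (A' := PS S' k (2 * b + 1))
          (A := PS S k (2 * b + 1)) (x := .var i) (B := PS S k (2 * b))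
          (Γ := {st true (PS S' k (2 * b + 1)) (PS S k (2 * b + 1)) (.var i)}) (by
            simp only [List.mem_cons, List.not_mem_nil, or_false, forall_eq_or_imp, forall_eq,
              PForm.size]
            refine ⟨by omega, by omega, by omega, by omega⟩) rfl
        refine (t1.cut t2).mono le_rfl (le_of_eq (by ring)) (fun _ h => h) ?_
        intro A hA
        simpa only [PS, e2] using hA

variable {n K : ℕ} {bl : List (List ℕ)}

/-- the partial sums -/
def TS (s : List ℕ) (K j : ℕ) : PForm := PS (fun i => pc s j i) K 0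

theorem size_TS (s : List ℕ) (K j : ℕ) : (TS s K j).size + 2 ≤ 6 * 4 ^ K := size_PS _ K 0

theorem stepTS (hS : SysX Φ κ) (s : List ℕ) (hs : ∀ y ∈ s, y < 2 ^ K) (hM : 6 * 4 ^ K ≤ M)
    (j : ℕ) (hj : j < s.length) :
    Ded Φ (κ * M) ((K + 1) * κ) Γ {st true (TS s K (j + 1)) (TS s K j) (.var (s.getD j 0))} := by
  have h1 : s.getD j 0 < 2 ^ K := by
    rw [List.getD_eq_getElem _ _ hj]
    exact hs _ (List.getElem_mem hj)
  refine toggle hS (S := fun i => pc s j i) (S' := fun i => pc s (j + 1) i) (i := s.getD j 0)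
    ?_ ?_ K 0 (by simp) (by simpa using h1) hM
  · show pc s (j + 1) _ = _
    rw [pc_succ s j _ hj, if_pos rfl]
  · intro i hi
    show pc s (j + 1) i = _
    rw [pc_succ s j i hj, if_neg (Ne.symm hi)]

theorem allTS (hS : SysX Φ κ) (s : List ℕ) (hs : ∀ y ∈ s, y < 2 ^ K) (hM : 6 * 4 ^ K ≤ M) :
    Ded Φ (κ * M) (s.length * ((K + 1) * κ)) Γ {A | ∃ j ∈ List.range s.length,
      A ∈ ({st true (TS s K (j + 1)) (TS s K j) (.var (s.getD j 0))} : Set PForm)} := by
  refine (Ded.list (n := (K + 1) * κ) (List.range s.length) (fun j =>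
    {st true (TS s K (j + 1)) (TS s K j) (.var (s.getD j 0))}) ?_).mono le_rfl
      (by rw [List.length_range]) (fun _ h => h) (fun _ h => h)
  intro j hj
  exact stepTS hS s hs hM j (List.mem_range.mp hj)

theorem verticesTS (hS : SysX Φ κ) (k : ℕ) (hkK : k ≤ K) (hM : 6 * 4 ^ K ≤ M)
    (hW : ∀ u ∈ bl, u.length ≤ 2 ^ k)
    (hΓ : ∀ j < bl.flatten.length, st true (TS bl.flatten K (j + 1)) (TS bl.flatten K j)
      (.var (bl.flatten.getD j 0)) ∈ Γ) (hK : ∀ u ∈ bl, parF k u ∈ Γ) :
    Ded Φ (κ * M) (bl.length * (2 ^ (k + 1) * κ)) Γ {A | ∃ v ∈ List.range bl.length,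
      A ∈ ({eqp true (TS bl.flatten K (pos bl (v + 1))) (TS bl.flatten K (pos bl v))} :
        Set PForm)} := by
  refine (Ded.list (n := 2 ^ (k + 1) * κ) (List.range bl.length) (fun v =>
    {eqp true (TS bl.flatten K (pos bl (v + 1))) (TS bl.flatten K (pos bl v))}) ?_).mono le_rfl
      (by rw [List.length_range]) (fun _ h => h) (fun _ h => h)
  intro v hv
  rw [List.mem_range] at hv
  have hmem : bl[v] ∈ bl := List.getElem_mem hv
  have h1 := vertexX hS k bl[v] (hW _ hmem)
    (le_trans (Nat.mul_le_mul_left 6 (Nat.pow_le_pow_right (by norm_num) hkK)) hM)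
    (fun i => TS bl.flatten K (pos bl v + i)) (fun i => by
      have := size_TS bl.flatten K (pos bl v + i)
      omega) (Γ := Γ) (by
      intro i hi
      have h2 := pos_succ bl v hv
      have h3 := pos_le bl (v + 1)
      have h4 := hΓ (pos bl v + i) (by omega)
      rw [getD_flatten bl v hv i hi] at h4
      exact h4) (hK _ hmem)
  rw [← pos_succ bl v hv] at h1
  exact h1

theorem Ded_mem {m n : ℕ} {A : PForm} (h : A ∈ Γ) (hs : A.size ≤ m) (hn : 1 ≤ n) :
    Ded Φ m n Γ {A} := by
  refine ⟨[A], Der.hyp Der.nil h, ?_, by simpa using hn, ?_⟩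
  · intro B hB
    obtain rfl : B = A := by simpa using hB
    exact hs
  · intro B hB
    obtain rfl : B = A := hB
    exact List.mem_cons_self

theorem chainTS (hS : SysX Φ κ) (hκ : 1 ≤ κ) (hM : 6 * 4 ^ K ≤ M)
    (h0 : PForm.neg (TS bl.flatten K 0) ∈ Γ)
    (hΓ : ∀ v < bl.length,
      eqp true (TS bl.flatten K (pos bl (v + 1))) (TS bl.flatten K (pos bl v)) ∈ Γ) :
    Ded Φ (κ * M) ((bl.length + 1) * κ) Γ {A | ∃ v ≤ bl.length,
      A ∈ ({val (decide (v % 2 = 1)) (TS bl.flatten K (pos bl v))} : Set PForm)} := by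
  refine Ded.iter (fun v => {val (decide (v % 2 = 1)) (TS bl.flatten K (pos bl v))})
    bl.length ?_ ?_
  · rw [pos_zero]
    refine Ded_mem h0 ?_ hκ
    have h1 := size_TS bl.flatten K 0
    refine le_trans ?_ (Nat.le_mul_of_pos_left M hκ)
    show (PForm.neg (TS bl.flatten K 0)).size ≤ M
    simp only [PForm.size]
    omega
  · intro v hv
    have a1 := size_TS bl.flatten K (pos bl (v + 1))
    have a2 := size_TS bl.flatten K (pos bl v)
    have h1 := hS.sys.chain (M := M)
      (Γ := Γ ∪ {val (decide (v % 2 = 1)) (TS bl.flatten K (pos bl v))}) (by omega)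
      (decide (v % 2 = 1)) (A := TS bl.flatten K (pos bl (v + 1))) (B := TS bl.flatten K (pos bl v))
      (by omega) (by omega) (Or.inl (hΓ v hv)) (Or.inr rfl)
    have h2 : (!decide (v % 2 = 1)) = decide ((v + 1) % 2 = 1) := by
      rcases Nat.mod_two_eq_zero_or_one v with h | h
      · have : (v + 1) % 2 = 1 := by omega
        simp [h, this]
      · have : (v + 1) % 2 = 0 := by omega
        simp [h, this]
    rw [h2] at h1
    exact h1

/-- the whole derivation -/
theorem wholeTS (hS : SysX Φ κ) (hκ : 1 ≤ κ) (k : ℕ) (hkK : k ≤ K)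
    (hlt : ∀ y ∈ bl.flatten, y < 2 ^ K) (hM : 6 * 4 ^ K ≤ M) (hW : ∀ u ∈ bl, u.length ≤ 2 ^ k)
    (heven : ∀ i, bl.flatten.count i % 2 = 0) (hodd : bl.length % 2 = 1)
    (hK : ∀ u ∈ bl, parF k u ∈ Γ) :
    Ded Φ (κ * M) (κ * (bl.flatten.length * (K + 1) + 2 ^ (K + 1) + bl.length * 2 ^ (k + 1) +
      bl.length + 2)) Γ {ff} := by
  have t1 := allTS hS bl.flatten hlt hM (Γ := Γ)
  have t2 : Ded Φ (κ * M) (lc K * κ) Γ {.neg (TS bl.flatten K 0)} := by
    refine zeroPS hS (S := fun i => pc bl.flatten 0 i) (fun i => pc_zero _ i) K 0 hM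
  have t12 := t1.union t2
  have t4 := verticesTS hS k hkK hM hW (bl := bl) (Γ := Γ ∪
    ({A | ∃ j ∈ List.range bl.flatten.length,
      A ∈ ({st true (TS bl.flatten K (j + 1)) (TS bl.flatten K j)
        (.var (bl.flatten.getD j 0))} : Set PForm)} ∪ {.neg (TS bl.flatten K 0)}))
    (fun j hj => Or.inr (Or.inl ⟨j, List.mem_range.mpr hj, rfl⟩)) (fun u hu => Or.inl (hK u hu))
  have t124 := t12.trans t4
  have t5 := chainTS hS hκ hM (bl := bl) (Γ := Γ ∪
    (({A | ∃ j ∈ List.range bl.flatten.length,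
      A ∈ ({st true (TS bl.flatten K (j + 1)) (TS bl.flatten K j)
        (.var (bl.flatten.getD j 0))} : Set PForm)} ∪ {.neg (TS bl.flatten K 0)}) ∪
      {A | ∃ v ∈ List.range bl.length,
        A ∈ ({eqp true (TS bl.flatten K (pos bl (v + 1))) (TS bl.flatten K (pos bl v))} :
          Set PForm)}))
    (Or.inr (Or.inl (Or.inr rfl))) (fun v hv => Or.inr (Or.inr ⟨v, List.mem_range.mpr hv, rfl⟩))
  have t1245 := t124.trans t5
  have e1 : TS bl.flatten K (pos bl bl.length) = TS bl.flatten K 0 := by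
    rw [pos_length]
    refine PS_congr K 0 fun i _ _ => ?_
    rw [pc_zero]
    unfold pc
    rw [List.take_length, heven i]
    rfl
  have a1 := size_TS bl.flatten K 0
  have t6 := hS.sys.contra (M := M) (Γ :=
    ((({A | ∃ j ∈ List.range bl.flatten.length,
      A ∈ ({st true (TS bl.flatten K (j + 1)) (TS bl.flatten K j)
        (.var (bl.flatten.getD j 0))} : Set PForm)} ∪ {.neg (TS bl.flatten K 0)}) ∪
      {A | ∃ v ∈ List.range bl.length,
        A ∈ ({eqp true (TS bl.flatten K (pos bl (v + 1))) (TS bl.flatten K (pos bl v))} :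
          Set PForm)}) ∪
      {A | ∃ v ≤ bl.length,
        A ∈ ({val (decide (v % 2 = 1)) (TS bl.flatten K (pos bl v))} : Set PForm)}))
    (by omega) (A := TS bl.flatten K 0) (by omega) (by
      refine Or.inr ⟨bl.length, le_rfl, ?_⟩
      have h1 : decide (bl.length % 2 = 1) = true := decide_eq_true hodd
      rw [h1, e1]
      rfl) (Or.inl (Or.inl (Or.inr rfl)))
  refine (t1245.cut t6).mono le_rfl ?_ (fun _ h => h) (fun _ h => h)
  have h3 := lc_eq K
  rw [← h3]
  have h4 : κ * (bl.flatten.length * (K + 1) + (lc K + 1) + bl.length * 2 ^ (k + 1) +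
      bl.length + 2) = bl.flatten.length * ((K + 1) * κ) + lc K * κ +
      bl.length * (2 ^ (k + 1) * κ) + (bl.length + 1) * κ + κ + κ := by ring
  rw [h4]
  omega

theorem derives_of_der {F : List PForm} {π : List PForm} (h : Der Φ {A | A ∈ F} π) :
    Derives Φ F π := by
  induction h with
  | nil => exact Derives.nil
  | hyp _ h ih => exact Derives.hyp _ ih h
  | rule σ _ h1 h2 ih => exact Derives.rule _ σ ih h1 h2

section

open Finset Classical

variable {N D q : ℕ}

/-- **Frege refutations of the formulas for the parities.** -/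
theorem upper_frege (hS : SysX Φ κ) (hκ : 1 ≤ κ)
    (f : Fin (N + 1) × Fin D → Fin (N + 1)) (hE : Even N) {n k K : ℕ}
    (hn : n = Fintype.card (Ed N D × Fin q)) (hk : ∀ v, (Uv f q v).card ≤ 2 ^ k) (hkK : k ≤ K)
    (hK : n ≤ 2 ^ K) :
    ∃ π, Refutes Φ (tsf k f q) π ∧ PForm.and (.var 0) (.neg (.var 0)) ∈ π ∧
      (∀ A ∈ π, A.size ≤ κ * (6 * 4 ^ K)) ∧
      π.length ≤ κ * (2 * n * (K + 1) + 2 ^ (K + 1) + (N + 1) * 2 ^ (k + 1) + (N + 1) + 2) := by
  have hlt : ∀ y ∈ (blocks f q).flatten, y < n := by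
    intro y hy
    obtain ⟨u, hu, hyu⟩ := List.mem_flatten.mp hy
    obtain ⟨v, _, rfl⟩ := List.mem_map.mp hu
    obtain ⟨p, _, rfl⟩ := List.mem_map.mp hyu
    rw [hn]
    exact (Fintype.equivFin _ p).isLt
  obtain ⟨π, h1, h2, h3, h4⟩ := wholeTS (bl := blocks f q) (K := K) (M := 6 * 4 ^ K)
    (Γ := {A | A ∈ tsf k f q}) hS hκ k hkK (fun y hy => (hlt y hy).trans_le hK) le_rfl
    (by
      intro u hu
      obtain ⟨v, _, rfl⟩ := List.mem_map.mp hu
      rw [length_ul]
      exact hk v)
    (by
      intro i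
      rcases Nat.lt_or_ge i n with h | h
      · rw [hn] at h
        exact even_count f i h
      · rw [List.count_eq_zero.mpr]
        intro hi
        have := hlt i hi
        omega)
    (by
      rw [length_blocks]
      obtain ⟨x, hx⟩ := hE
      omega)
    (by
      intro u hu
      obtain ⟨v, _, rfl⟩ := List.mem_map.mp hu
      exact mem_tsf.mpr ⟨v, rfl⟩)
  have h5 : PForm.and (.var 0) (.neg (.var 0)) ∈ π := h4 _ rfl
  refine ⟨π, ⟨derives_of_der h1, _, h5, ?_⟩, h5, h2, h3.trans ?_⟩
  · intro a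
    simp [PForm.eval]
  · have h6 := length_flatten (q := q) f
    rw [← hn] at h6
    rw [length_blocks]
    refine Nat.mul_le_mul_left κ ?_
    have h7 := Nat.mul_le_mul_right (K + 1) h6
    omega

end

end Pool.Agent.T9h49.QS
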