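import Pool.Agent.T9h49.QS.Main
import Pool.Agent.T9h49.QS.XFrege

/-!
# The separation of refutations with lines of less than quadratic length
-/

set_option autoImplicit false
set_option linter.unusedSectionVars false

namespace Pool.Agent.T9h49.QS

open Finset Classical
open Pool.Agent.T9h49.RK (PForm Rule Derives Refutes Ed Inc par outd indeg num num_inj sizeL Unsat
  Uv Uv_nonempty tse mem_tse cl tse_clause tse_unsat card_Uv pull ev_pull Fm)
open Pool.Agent.T9h90.FT (tailW vars_tse Wt bf Wt_pull Wt_mono)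
open Pool.Agent.T9h82.SL
open Pool.Agent.T9h82.QL
open Pool.Agent.T9h90.EF (Frege ERefutes upper_tse)

/-- the constant of a Frege system -/
noncomputable def kap (Φ : Set Rule) : ℕ := if h : Frege Φ then (sysX_exists h).choose else 0

theorem kap_spec {Φ : Set Rule} (h : Frege Φ) : 1 ≤ kap Φ ∧ SysX Φ (kap Φ) := by
  rw [kap, dif_pos h]
  exact (sysX_exists h).choose_spec

theorem arith_F {κ d m q k : ℕ} (hκ : 1 ≤ κ) (hm : 1 ≤ m) (hq : 1 ≤ q)
    (hk : 2 ^ k ≤ 2 * (q * d)) :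
    m + κ * (2 * ((2 * (33 * m * q) + 1) * (33 * m * q + 1)) + (33 * m * q + 1) +
      m * 2 ^ (k + 1) + m + 2) ≤ κ * (14000 + 26136 * d ^ 2) * (m * q) ^ 2 := by
  obtain ⟨x, hx⟩ : ∃ x, x = m * q := ⟨_, rfl⟩
  have hmx : m ≤ x := by rw [hx]; exact Nat.le_mul_of_pos_right m hq
  have hx1 : 1 ≤ x := hm.trans hmx
  have hxx : x ≤ x ^ 2 := by nlinarith
  have e1 : 33 * m * q = 33 * x := by rw [hx]; ring
  have e2 : m * 2 ^ (k + 1) ≤ 4 * d * x := by
    rw [hx, pow_succ]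
    calc m * (2 ^ k * 2) ≤ m * (2 * (q * d) * 2) :=
          Nat.mul_le_mul_left m (Nat.mul_le_mul_right 2 hk)
      _ = 4 * d * (m * q) := by ring
  have e3 : 4 * d * x ≤ (4 + 4 * d ^ 2) * x ^ 2 := by
    have h1 : 4 * d ≤ 4 + 4 * d ^ 2 := by
      rcases Nat.eq_zero_or_pos d with h | h
      · subst h; norm_num
      · nlinarith
    exact Nat.mul_le_mul h1 hxx
  rw [e1, ← hx]
  have e4 : 2 * ((2 * (33 * x) + 1) * (33 * x + 1)) = 4356 * x ^ 2 + 198 * x + 2 := by ring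
  have e5 : 2 * ((2 * (33 * x) + 1) * (33 * x + 1)) + (33 * x + 1) + m * 2 ^ (k + 1) + m + 2 ≤
      (13000 + 30 * d ^ 2) * x ^ 2 := by
    have e6 : (4 + 4 * d ^ 2) * x ^ 2 = 4 * x ^ 2 + 4 * (d ^ 2 * x ^ 2) := by ring
    have e7 : (13000 + 30 * d ^ 2) * x ^ 2 = 13000 * x ^ 2 + 30 * (d ^ 2 * x ^ 2) := by ring
    omega
  calc m + κ * (2 * ((2 * (33 * x) + 1) * (33 * x + 1)) + (33 * x + 1) + m * 2 ^ (k + 1) + m + 2)
      ≤ κ * x ^ 2 + κ * ((13000 + 30 * d ^ 2) * x ^ 2) :=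
        Nat.add_le_add ((hmx.trans hxx).trans (Nat.le_mul_of_pos_left _ hκ))
          (Nat.mul_le_mul_left κ e5)
    _ = κ * (13001 + 30 * d ^ 2) * x ^ 2 := by ring
    _ ≤ κ * (14000 + 26136 * d ^ 2) * x ^ 2 :=
        Nat.mul_le_mul_right _ (Nat.mul_le_mul_left κ (by omega))

theorem arith_G {κ d m q S C : ℕ} (hκ : 1 ≤ κ) (hm : 1 ≤ m) (hq : 1 ≤ q)
    (hS : S ≤ m * 2 ^ (C * q)) (hC : d + 1 ≤ C) :
    S + κ * (2 * ((2 * (33 * m * q) + 1) * (33 * m * q + 1)) + (33 * m * q + 1) +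
      33 * m * q * 2 ^ (d * q + 2) + 33 * m * q + 2) ≤
      κ * (14000 + 26136 * d ^ 2) * ((m * q) ^ 2 + m * 2 ^ (C * q)) := by
  obtain ⟨x, hx⟩ : ∃ x, x = m * q := ⟨_, rfl⟩
  obtain ⟨V, hV⟩ : ∃ V, V = m * 2 ^ (C * q) := ⟨_, rfl⟩
  have hmx : m ≤ x := by rw [hx]; exact Nat.le_mul_of_pos_right m hq
  have hx1 : 1 ≤ x := hm.trans hmx
  have hxx : x ≤ x ^ 2 := by nlinarith
  have e1 : 33 * m * q = 33 * x := by rw [hx]; ring
  have e2 : 33 * m * q * 2 ^ (d * q + 2) ≤ 132 * V := by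
    have h1 : q ≤ 2 ^ q := Nat.lt_two_pow_self.le
    calc 33 * m * q * 2 ^ (d * q + 2) ≤ 33 * m * 2 ^ q * 2 ^ (d * q + 2) :=
          Nat.mul_le_mul_right _ (Nat.mul_le_mul_left _ h1)
      _ = 132 * (m * 2 ^ ((d + 1) * q)) := by
          rw [pow_add, Nat.add_mul, one_mul, pow_add]
          ring
      _ ≤ 132 * V := by
          rw [hV]
          apply Nat.mul_le_mul_left
          apply Nat.mul_le_mul_left
          exact Nat.pow_le_pow_right (by norm_num) (Nat.mul_le_mul_right q hC)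
  rw [← hV] at hS
  rw [e1] at e2 ⊢
  rw [← hx, ← hV]
  have e4 : 2 * ((2 * (33 * x) + 1) * (33 * x + 1)) = 4356 * x ^ 2 + 198 * x + 2 := by ring
  have e5 : 2 * ((2 * (33 * x) + 1) * (33 * x + 1)) + (33 * x + 1) + 33 * x * 2 ^ (d * q + 2) +
      33 * x + 2 ≤ 13000 * x ^ 2 + 132 * V := by
    omega
  calc S + κ * (2 * ((2 * (33 * x) + 1) * (33 * x + 1)) + (33 * x + 1) +
        33 * x * 2 ^ (d * q + 2) + 33 * x + 2)
      ≤ κ * V + κ * (13000 * x ^ 2 + 132 * V) :=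
        Nat.add_le_add (hS.trans (Nat.le_mul_of_pos_left _ hκ)) (Nat.mul_le_mul_left κ e5)
    _ = κ * (13000 * x ^ 2 + 133 * V) := by ring
    _ ≤ κ * ((14000 + 26136 * d ^ 2) * (x ^ 2 + V)) := by
        apply Nat.mul_le_mul_left
        have h1 : (14000 + 26136 * d ^ 2) * (x ^ 2 + V) =
            14000 * x ^ 2 + 14000 * V + 26136 * (d ^ 2 * (x ^ 2 + V)) := by ring
        omega
    _ = _ := by ring

theorem log_mul_le {a b : ℕ} : Nat.log 2 (a * b) ≤ Nat.log 2 a + Nat.log 2 b + 1 := by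
  rcases Nat.eq_zero_or_pos (a * b) with h | h
  · rw [h]
    simp
  · have h1 : a < 2 ^ (Nat.log 2 a + 1) := Nat.lt_pow_succ_log_self (by norm_num) a
    have h2 : b < 2 ^ (Nat.log 2 b + 1) := Nat.lt_pow_succ_log_self (by norm_num) b
    have h3 : a * b < 2 ^ (Nat.log 2 a + Nat.log 2 b + 1 + 1) := by
      calc a * b < 2 ^ (Nat.log 2 a + 1) * 2 ^ (Nat.log 2 b + 1) :=
            Nat.mul_lt_mul_of_lt_of_lt h1 h2
        _ = _ := by rw [← pow_add]; congr 1; ring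
    exact Nat.lt_succ_iff.mp (Nat.log_lt_of_lt_pow (by omega) h3)

theorem arith_H {κ d m q k K : ℕ} (hm : 1 ≤ m) (hq : 1 ≤ q) (hd : 1 ≤ d)
    (hk : 2 ^ k ≤ 2 * (q * d)) (hK : K = Nat.log 2 (33 * m * q * d) + 1) :
    κ * (2 * (33 * m * q) * (K + 1) + 2 ^ (K + 1) + m * 2 ^ (k + 1) + m + 2) ≤
      κ * (14000 + 26136 * d ^ 2) * (m * q * (Nat.log 2 (m * q) + 1)) := by
  obtain ⟨x, hx⟩ : ∃ x, x = m * q := ⟨_, rfl⟩
  have hmx : m ≤ x := by rw [hx]; exact Nat.le_mul_of_pos_right m hq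
  have hx1 : 1 ≤ x := hm.trans hmx
  have e1 : 33 * m * q = 33 * x := by rw [hx]; ring
  obtain ⟨L, hL⟩ : ∃ L, L = Nat.log 2 x := ⟨_, rfl⟩
  obtain ⟨y, hy⟩ : ∃ y, y = x * (L + 1) := ⟨_, rfl⟩
  have hxy : x ≤ y := by rw [hy]; exact Nat.le_mul_of_pos_right x (by omega)
  have e2 : m * 2 ^ (k + 1) ≤ 4 * (d * y) := by
    rw [pow_succ]
    calc m * (2 ^ k * 2) ≤ m * (2 * (q * d) * 2) :=
          Nat.mul_le_mul_left m (Nat.mul_le_mul_right 2 hk)
      _ = 4 * (d * x) := by rw [hx]; ring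
      _ ≤ 4 * (d * y) := Nat.mul_le_mul_left 4 (Nat.mul_le_mul_left d hxy)
  have e3 : 2 ^ (K + 1) ≤ 132 * (d * y) := by
    have h1 : 2 ^ Nat.log 2 (33 * m * q * d) ≤ 33 * m * q * d := Nat.pow_log_le_self 2 (by positivity)
    calc 2 ^ (K + 1) = 4 * 2 ^ Nat.log 2 (33 * m * q * d) := by rw [hK, pow_succ, pow_succ]; ring
      _ ≤ 4 * (33 * m * q * d) := Nat.mul_le_mul_left 4 h1
      _ = 132 * (d * x) := by rw [e1]; ring
      _ ≤ 132 * (d * y) := Nat.mul_le_mul_left 132 (Nat.mul_le_mul_left d hxy)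
  have e4 : K + 1 ≤ (L + 1) * (33 * d + 3) := by
    have h1 : Nat.log 2 (33 * m * q * d) ≤ Nat.log 2 x + Nat.log 2 (33 * d) + 1 := by
      have : 33 * m * q * d = x * (33 * d) := by rw [hx]; ring
      rw [this]
      exact log_mul_le
    have h2 : Nat.log 2 (33 * d) ≤ 33 * d := Nat.log_le_self 2 _
    rw [← hL] at h1
    have h3 : (L + 1) * (33 * d + 3) = 33 * (L * d) + 3 * L + 33 * d + 3 := by ring
    rw [h3, hK]
    omega
  have e5 : 2 * (33 * x) * (K + 1) ≤ 2178 * (d * y) + 198 * y := by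
    calc 2 * (33 * x) * (K + 1) ≤ 2 * (33 * x) * ((L + 1) * (33 * d + 3)) :=
          Nat.mul_le_mul_left _ e4
      _ = 2178 * (d * y) + 198 * y := by rw [hy]; ring
  have e6 : d * y ≤ d ^ 2 * y := Nat.mul_le_mul_right y (by nlinarith)
  rw [e1, ← hx, ← hL, ← hy, Nat.mul_assoc κ]
  apply Nat.mul_le_mul_left
  have e7 : (14000 + 26136 * d ^ 2) * y = 14000 * y + 26136 * (d ^ 2 * y) := by ring
  omega

theorem main : ∃ (C : ℕ) (K : Set Rule → ℕ) (F G : ℕ → ℕ → List PForm),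
    (∀ m q : ℕ, Odd m → 3 ≤ m → 1 ≤ q →
      ((F m q).length = m ∧ Unsat (F m q) ∧
        ∀ A ∈ F m q, A.vars ⊆ range (33 * m * q) ∧ A.vars.card ≤ C * q ∧ A.size ≤ C * q ^ 2) ∧
      (sizeL (G m q) ≤ m * 2 ^ (C * q) ∧ Unsat (G m q) ∧
        ∀ A ∈ G m q, A.IsClause ∧ A.vars ⊆ range (33 * m * q) ∧ A.size ≤ C * q) ∧
      (∃ π : List PForm, Refutes {ρ | ρ.Sound ∧ ρ.prem.length ≤ 2} (F m q) π ∧
        π.length ≤ 2 * m ∧ ∀ A ∈ π, A.size ≤ C * (m * q ^ 2)) ∧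
      ∀ Φ : Set Rule, Frege Φ →
        (∃ π : List PForm, ERefutes Φ (F m q) π ∧ π.length ≤ K Φ * (m * q) ^ 2 ∧
          ∀ A ∈ π, A.size ≤ K Φ * q ^ 2) ∧
        (∃ π : List PForm, ERefutes Φ (G m q) π ∧
          π.length ≤ K Φ * ((m * q) ^ 2 + m * 2 ^ (C * q)) ∧ ∀ A ∈ π, A.size ≤ K Φ * q) ∧
        ∃ π : List PForm, Refutes Φ (F m q) π ∧ PForm.and (.var 0) (.neg (.var 0)) ∈ π ∧
          π.length ≤ K Φ * (m * q * (Nat.log 2 (m * q) + 1)) ∧
          ∀ A ∈ π, A.size ≤ K Φ * (m * q) ^ 2) ∧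
    ∀ r : ℕ, ∃ ε : ℝ, 0 < ε ∧ ∃ m0 : ℕ, ∀ m q : ℕ, Odd m → m0 ≤ m → 1 ≤ q →
      ∀ Φ : Set Rule, (∀ ρ ∈ Φ, ρ.Sound ∧ ρ.prem.length ≤ r) → ∀ π : List PForm,
        Refutes Φ (F m q ++ G m q) π →
        (∀ A ∈ π, (∃ d s : ℕ, (d : ℝ) ≤ ε * (m * q) ∧ (s : ℝ) ≤ ε * (m * q ^ 2) ∧
            Short s d (fun a => A.eval (cut (33 * m * q) a))) ∨
          tailW (33 * m * q) A (ε * (m * q)) ≤ 2 ^ (-((m : ℝ) / ε))) →
        2 ^ m ≤ π.length := by
  obtain ⟨Δ, hΔ⟩ := exists_bdd_graph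
  obtain ⟨D', hD'⟩ : ∃ D' : ℕ, D' = 16 * 2 + 2 + Δ := ⟨_, rfl⟩
  have hD1 : 34 ≤ D' := by omega
  choose f hf1 hf2 using hΔ
  set kf : ℕ → ℕ := fun q => Nat.log 2 (q * D') + 1 with hkf
  have hU0 : ∀ N q v, (Uv (f N) q v).card ≤ D' * q := by
    intro N q v
    have h1 := card_Uv (q := q) (f N) v
    have h2 := hf2 N v
    calc (Uv (f N) q v).card ≤ q * (16 * 2 + 2) + q * indeg (f N) v := h1
      _ ≤ q * (16 * 2 + 2) + q * Δ := by
          have := Nat.mul_le_mul_left q h2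
          omega
      _ = D' * q := by rw [hD']; ring
  have hU : ∀ N q v, (Uv (f N) q v).card ≤ 2 ^ kf q := by
    intro N q v
    refine (hU0 N q v).trans ?_
    rw [mul_comm]
    exact (Nat.lt_pow_succ_log_self (by norm_num) _).le
  have h2k : ∀ q : ℕ, 1 ≤ q → 2 ^ kf q ≤ 2 * (q * D') := by
    intro q hq
    have h1 : 2 ^ Nat.log 2 (q * D') ≤ q * D' := Nat.pow_log_le_self 2 (by positivity)
    show 2 ^ (Nat.log 2 (q * D') + 1) ≤ _
    rw [pow_succ]
    omega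
  have h4k : ∀ x : ℕ, 1 ≤ x → 4 ^ (Nat.log 2 x + 1) ≤ 4 * x ^ 2 := by
    intro x hx
    have h1 : 2 ^ Nat.log 2 x ≤ x := Nat.pow_log_le_self 2 (by omega)
    calc 4 ^ (Nat.log 2 x + 1) = 4 * (2 ^ Nat.log 2 x) ^ 2 := by
          rw [pow_succ, ← pow_mul, mul_comm (Nat.log 2 x) 2, pow_mul]
          norm_num
          ring
      _ ≤ 4 * x ^ 2 := Nat.mul_le_mul_left _ (Nat.pow_le_pow_left h1 2)
  have hCD : D' ≤ D' ^ 2 := by nlinarith
  refine ⟨26136 * D' ^ 2, fun Φ => kap Φ * (14000 + 26136 * D' ^ 2),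
    fun m q => tsf (kf q) (f (m - 1)) q, fun m q => tse (f (m - 1)) q, ?_, ?_⟩
  · intro m q hm hm3 hq
    obtain ⟨N, rfl⟩ : ∃ N, m = N + 1 := ⟨m - 1, by omega⟩
    have hE : Even N := by
      rw [Nat.odd_add_one] at hm
      exact Nat.not_odd_iff_even.mp hm
    have hN1 : 1 ≤ N := by omega
    have hv : (N + 1) * (16 * 2 + 1) * q = 33 * (N + 1) * q := by ring
    have hcard : Fintype.card (Ed N (16 * 2) × Fin q) = 33 * (N + 1) * q := by
      rw [card_var]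
      exact hv
    have hsG : sizeL (tse (f N) q) ≤ (N + 1) * 2 ^ (26136 * D' ^ 2 * q) := by
      have h1 := tse_size (q := q) (f N) (hf2 N) hN1 hq
      rw [← hD'] at h1
      refine h1.trans ?_
      have h2 : 3 * 4 ^ (q * D') ≤ 2 ^ (26136 * D' ^ 2 * q) := by
        calc 3 * 4 ^ (q * D') ≤ 2 ^ 2 * (2 ^ 2) ^ (q * D') := by norm_num
          _ = 2 ^ (2 + 2 * (q * D')) := by rw [← pow_mul, ← pow_add]
          _ ≤ 2 ^ (26136 * D' ^ 2 * q) := by
              apply Nat.pow_le_pow_right (by norm_num)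
              nlinarith [Nat.mul_le_mul_right q hCD]
      calc 3 * 4 ^ (q * D') * (N + 1) ≤ 2 ^ (26136 * D' ^ 2 * q) * (N + 1) :=
            Nat.mul_le_mul_right _ h2
        _ = _ := by ring
    refine ⟨⟨?_, tsf_unsat _ (hU N q) hE, fun A hA => ⟨?_, ?_, ?_⟩⟩,
      ⟨hsG, tse_unsat (f N) hq hN1 hE, fun A hA => ⟨?_, ?_, ?_⟩⟩, ?_, fun Φ hΦ => ⟨?_, ?_, ?_⟩⟩
    · unfold tsf
      rw [List.length_map, Finset.length_toList, card_univ, Fintype.card_fin]
      rfl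
    · rw [← hv]
      exact vars_tsf (f N) hq hA
    · have h1 := card_vars_tsf (f N) (hU0 N q) hA
      nlinarith
    · obtain ⟨v, rfl⟩ := mem_tsf.mp hA
      have h1 := size_parF (kf q) ((Uv (f N) q v).toList.map num)
      have h2 := h4k (q * D') (by nlinarith)
      show (parF (kf q) ((Uv (f N) q v).toList.map num)).size ≤ _
      calc (parF (kf q) ((Uv (f N) q v).toList.map num)).size ≤ 6 * 4 ^ kf q := by omega
        _ ≤ 6 * (4 * (q * D') ^ 2) := Nat.mul_le_mul_left _ h2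
        _ = 24 * D' ^ 2 * q ^ 2 := by ring
        _ ≤ 26136 * D' ^ 2 * q ^ 2 := by
            apply Nat.mul_le_mul_right
            exact Nat.mul_le_mul_right _ (by norm_num)
    · exact tse_clause (f N) hq hN1 A hA
    · rw [← hv, ← card_var]
      exact vars_tse (f N) hq hN1 A hA
    · obtain ⟨v, T, _, _, rfl⟩ := mem_tse.mp hA
      refine (T9h49.RK.cl_size _ _ (Uv_nonempty (f N) hq hN1 v)).trans ?_
      have h1 := hU0 N q v
      have h2 := Nat.mul_le_mul_right q hCD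
      calc 3 * (Uv (f N) q v).card ≤ 3 * (D' ^ 2 * q) := Nat.mul_le_mul_left 3 (h1.trans h2)
        _ = 3 * D' ^ 2 * q := by ring
        _ ≤ 26136 * D' ^ 2 * q :=
            Nat.mul_le_mul_right _ (Nat.mul_le_mul_right _ (by norm_num))
    · have hlen : (tsf (kf q) (f N) q).length = N + 1 := by
        unfold tsf
        rw [List.length_map, Finset.length_toList, card_univ, Fintype.card_fin]
      have hsz : sizeL (tsf (kf q) (f N) q) ≤ 24 * D' ^ 2 * q ^ 2 * (N + 1) := by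
        have h1 := tsf_size (k := kf q) (q := q) (f N)
        have h2 := h4k (q * D') (by nlinarith)
        calc sizeL (tsf (kf q) (f N) q) ≤ 6 * 4 ^ kf q * (N + 1) := h1
          _ ≤ 6 * (4 * (q * D') ^ 2) * (N + 1) :=
              Nat.mul_le_mul_right _ (Nat.mul_le_mul_left _ h2)
          _ = _ := by ring
      obtain ⟨π, h1, h2, h3⟩ := conj_refutation (tsf (kf q) (f N) q) (by
        intro h
        rw [h] at hlen
        simp at hlen) (tsf_unsat _ (hU N q) hE)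
      refine ⟨π, h1, by rw [hlen] at h2; exact h2, fun A hA => (h3 A hA).trans ?_⟩
      rw [hlen]
      calc sizeL (tsf (kf q) (f N) q) + (N + 1)
          ≤ 24 * D' ^ 2 * q ^ 2 * (N + 1) + (D' ^ 2 * q ^ 2) * (N + 1) := by
            apply Nat.add_le_add hsz
            have : 1 ≤ D' ^ 2 * q ^ 2 := Nat.one_le_iff_ne_zero.mpr (by positivity)
            exact Nat.le_mul_of_pos_left _ this
        _ = 25 * (D' ^ 2 * ((N + 1) * q ^ 2)) := by ring
        _ ≤ 26136 * (D' ^ 2 * ((N + 1) * q ^ 2)) := Nat.mul_le_mul_right _ (by norm_num)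
        _ = _ := by ring
    · obtain ⟨hκ, hS⟩ := kap_spec hΦ
      obtain ⟨π, h1, h2, h3⟩ := upper_tsf hS hκ (f N) (by omega : 0 < q) hE hcard.symm (hU N q)
      refine ⟨π, h1, h3.trans (arith_F hκ (by omega) hq (h2k q hq)), fun A hA => ?_⟩
      refine (h2 A hA).trans ?_
      have h4 : 4 ^ kf q ≤ 4 * (q * D') ^ 2 := h4k (q * D') (by nlinarith)
      have h5 : 1 ≤ q ^ 2 := Nat.one_le_pow _ _ hq
      calc kap Φ * (6 * 4 ^ kf q + 30) ≤ kap Φ * (6 * (4 * (q * D') ^ 2) + 30 * q ^ 2) :=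
            Nat.mul_le_mul_left _ (by omega)
        _ = kap Φ * (30 + 24 * D' ^ 2) * q ^ 2 := by ring
        _ ≤ kap Φ * (14000 + 26136 * D' ^ 2) * q ^ 2 :=
            Nat.mul_le_mul_right _ (Nat.mul_le_mul_left _ (by omega))
    · obtain ⟨hκ, hS⟩ := kap_spec hΦ
      obtain ⟨π, h1, h2, h3⟩ := upper_tse hS.sys hκ (f N) (by omega : 0 < q) hN1 hE
        hcard.symm (hU0 N q)
      refine ⟨π, h1, h3.trans (arith_G hκ (by omega) hq hsG ?_), fun A hA => ?_⟩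
      · nlinarith
      · refine (h2 A hA).trans ?_
        calc kap Φ * (3 * (D' * q) + 30) ≤ kap Φ * (3 * (D' * q) + 30 * q) :=
              Nat.mul_le_mul_left _ (by omega)
          _ = kap Φ * (30 + 3 * D') * q := by ring
          _ ≤ kap Φ * (14000 + 26136 * D' ^ 2) * q :=
              Nat.mul_le_mul_right _ (Nat.mul_le_mul_left _ (by omega))
    · obtain ⟨hκ, hS⟩ := kap_spec hΦ
      obtain ⟨K, hK⟩ : ∃ K, K = Nat.log 2 (33 * (N + 1) * q * D') + 1 := ⟨_, rfl⟩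
      have hle : q * D' ≤ 33 * (N + 1) * q * D' := by
        apply Nat.mul_le_mul_right
        exact Nat.le_mul_of_pos_left q (by omega)
      have hlt : 33 * (N + 1) * q * D' < 2 ^ K := by
        rw [hK]
        exact Nat.lt_pow_succ_log_self (by norm_num) _
      obtain ⟨π, h1, h2, h3, h4⟩ := upper_frege hS hκ (f N) hE hcard.symm (hU N q) (K := K)
        (by
          rw [hK]
          exact Nat.add_le_add_right (Nat.log_mono_right hle) 1)
        (by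
          refine le_trans ?_ hlt.le
          exact Nat.le_mul_of_pos_right _ (by omega))
      refine ⟨π, h1, h2, h4.trans (arith_H (by omega) hq (by omega) (h2k q hq) hK),
        fun A hA => ?_⟩
      refine (h3 A hA).trans ?_
      have h5 : 4 ^ K ≤ 4 * (33 * (N + 1) * q * D') ^ 2 := by
        rw [hK]
        exact h4k _ (Nat.one_le_iff_ne_zero.mpr (by positivity))
      calc kap Φ * (6 * 4 ^ K) ≤ kap Φ * (6 * (4 * (33 * (N + 1) * q * D') ^ 2)) :=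
            Nat.mul_le_mul_left _ (Nat.mul_le_mul_left _ h5)
        _ = kap Φ * (26136 * D' ^ 2) * ((N + 1) * q) ^ 2 := by ring
        _ ≤ kap Φ * (14000 + 26136 * D' ^ 2) * ((N + 1) * q) ^ 2 :=
            Nat.mul_le_mul_right _ (Nat.mul_le_mul_left _ (by omega))
  · intro r
    obtain ⟨ε, hε0, N0, hlow⟩ := lower r Δ
    refine ⟨ε, hε0, N0 + 3, ?_⟩
    intro m q hm hm0 hq Φ hΦ π hπ hl
    obtain ⟨N, rfl⟩ : ∃ N, m = N + 1 := ⟨m - 1, by omega⟩
    have hN1 : 1 ≤ N := by omega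
    refine hlow N q (by omega) hq (f N) (hf1 N) (hf2 N) (tsf (kf q) (f N) q ++ tse (f N) q)
      ?_ Φ hΦ π hπ hl
    intro A hA
    rcases List.mem_append.mp hA with h | h
    · exact tsf_hF (f N) (hU N q) A h
    · exact tse_hF (f N) hN1 hq A h

end Pool.Agent.T9h49.QS
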