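import Mathlib

/-!
# Restriction to the first variables
-/

set_option autoImplicit false

namespace Pool.Agent.T9h49.QS

/-- the assignment in which the variables from number `n` on are set to false -/
def cut (n : ℕ) (a : ℕ → Bool) (i : ℕ) : Bool := a i && decide (i < n)

end Pool.Agent.T9h49.QS
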