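import Pool.Agent.T9h49.QS.XTree
import Pool.Agent.T9h90.EF.Inst

/-!
# The extended Frege refutation of the formulas for the parities
-/

set_option autoImplicit false
set_option linter.unusedSectionVars false

namespace Pool.Agent.T9h49.QS

open Pool.Agent.T9h49.RK
open Pool.Agent.T9h90.EF
open Pool.Agent.T9h82.SL (parF xorF size_parF vars_parF_sub tsf mem_tsf tsf_size oddF)

variable {Φ : Set Rule} {κ M n n' : ℕ} {bl : List (List ℕ)}

theorem verticesX (hS : SysX Φ κ) (k : ℕ)
    (hlt : ∀ u ∈ bl, ∀ y ∈ u, y < n) (hM : 6 * 4 ^ k ≤ M) (hW : ∀ u ∈ bl, u.length ≤ 2 ^ k)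
    (Γ : Set PForm) (hΓ : ∀ j ≤ bl.flatten.length, ∀ k ≤ n, dfn n n' bl.flatten j k ∈ Γ)
    (hK : ∀ u ∈ bl, parF k u ∈ Γ) :
    Ded Φ (κ * M) (bl.length * (2 ^ (k + 1) * κ)) Γ {A | ∃ v ∈ List.range bl.length,
      A ∈ ({eqp true (Qv n n' (pos bl (v + 1)) n) (Qv n n' (pos bl v) n)} : Set PForm)} := by
  refine (Ded.list (n := 2 ^ (k + 1) * κ) (List.range bl.length) (fun v =>
    {eqp true (Qv n n' (pos bl (v + 1)) n) (Qv n n' (pos bl v) n)}) ?_).mono le_rfl
      (by rw [List.length_range]) (fun _ h => h) (fun _ h => h)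
  intro v hv
  rw [List.mem_range] at hv
  have hmem : bl[v] ∈ bl := List.getElem_mem hv
  have h1 := vertexX hS k bl[v] (hW _ hmem) hM
    (fun i => Qv n n' (pos bl v + i) n) (fun i => by
      have : 1 ≤ 4 ^ k := Nat.one_le_pow _ _ (by norm_num)
      have := size_Qv (n := n) (n' := n') (pos bl v + i) n
      omega) (Γ := Γ) (by
      intro i hi
      have h2 := pos_succ bl v hv
      have h3 := pos_le bl (v + 1)
      have h4 := hΓ (pos bl v + i + 1) (by omega) n le_rfl
      simp only [dfn] at h4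
      rw [getD_flatten bl v hv i hi] at h4
      have h5 : decide (bl[v][i] < n) = true :=
        decide_eq_true (hlt _ hmem _ (List.getElem_mem hi))
      rw [h5] at h4
      exact h4) (hK _ hmem)
  rw [← pos_succ bl v hv] at h1
  exact h1

/-- the whole derivation from the definitions and the formulas -/
theorem wholeX (hS : SysX Φ κ) (k : ℕ)
    (hlt : ∀ u ∈ bl, ∀ y ∈ u, y < n) (hM : 6 * 4 ^ k ≤ M) (hW : ∀ u ∈ bl, u.length ≤ 2 ^ k)
    (hn : 1 ≤ n) (heven : ∀ k < n, bl.flatten.count k % 2 = 0) (hodd : bl.length % 2 = 1)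
    (Γ : Set PForm) (hΓ : ∀ j ≤ bl.flatten.length, ∀ k ≤ n, dfn n n' bl.flatten j k ∈ Γ)
    (hK : ∀ u ∈ bl, parF k u ∈ Γ) :
    Ded Φ (κ * M) (κ * ((bl.flatten.length + 1) * (n + 1) + (n + 1) +
      bl.length * 2 ^ (k + 1) + bl.length + 2)) Γ {ff} := by
  have hM1 : 1 ≤ M := by
    have : 1 ≤ 4 ^ k := Nat.one_le_pow _ _ (by norm_num)
    omega
  have hS' := hS.sys
  have t1 := table hS' hM1 Γ hΓ
  have t2 := zeros hS' hM1 Γ hΓ
  have t3 := lastRow hS' (s := bl.flatten) (n := n) (n' := n') hM1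
    ({A | ∃ j ≤ bl.flatten.length, A ∈ {A | ∃ k < n,
      A = st (pc bl.flatten j k) (Qv n n' j (k + 1)) (Qv n n' j k) (.var k)}} ∪
      {A | ∃ j ≤ bl.flatten.length, A ∈ ({.neg (Qv n n' j 0)} : Set PForm)})
    (by
      intro k hk
      refine Or.inl ⟨bl.flatten.length, le_rfl, k, hk, ?_⟩
      have : pc bl.flatten bl.flatten.length k = false := by
        unfold pc
        rw [List.take_length, heven k hk]
        rfl
      rw [this]) (Or.inr ⟨bl.flatten.length, le_rfl, rfl⟩) hn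
  have t4 := verticesX hS k hlt hM hW Γ hΓ hK
  have t5 := chain (n := n) (n' := n') (bl := bl) hS' hM1
    (Γ ∪ {A | ∃ v ∈ List.range bl.length,
      A ∈ ({eqp true (Qv n n' (pos bl (v + 1)) n) (Qv n n' (pos bl v) n)} : Set PForm)})
    (Or.inl (hΓ 0 (Nat.zero_le _) n le_rfl)) (by
      intro v hv
      exact Or.inr ⟨v, List.mem_range.mpr hv, rfl⟩)
  have t6 := hS'.contra (Γ := {A | ∃ k ≤ n, k ≠ 0 ∧ A = .neg (Qv n n' bl.flatten.length k)} ∪
    ({A | ∃ v ∈ List.range bl.length,
      A ∈ ({eqp true (Qv n n' (pos bl (v + 1)) n) (Qv n n' (pos bl v) n)} : Set PForm)} ∪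
      {A | ∃ v ≤ bl.length,
      A ∈ ({val (decide (v % 2 = 1)) (Qv n n' (pos bl v) n)} : Set PForm)})) hM1
    (A := Qv n n' bl.flatten.length n) (by simp [size_Qv, hM1]) (by
      refine Or.inr (Or.inr ⟨bl.length, le_rfl, ?_⟩)
      rw [pos_length]
      have : decide (bl.length % 2 = 1) = true := decide_eq_true hodd
      rw [this]
      rfl) (Or.inl ⟨n, le_rfl, by omega, rfl⟩)
  have t12 := (t1.union t2).cut t3
  have t45 := t4.trans t5
  refine ((t12.union t45).cut t6).mono le_rfl ?_ (fun _ h => h) (fun _ h => h)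
  refine le_of_eq ?_
  ring

/-- **Upper bound.** -/
theorem upperX (hS : SysX Φ κ) (hκ : 1 ≤ κ) (k : ℕ) (F : List PForm)
    (hlt : ∀ u ∈ bl, ∀ y ∈ u, y < n) (hW : ∀ u ∈ bl, u.length ≤ 2 ^ k)
    (hn : 1 ≤ n) (heven : ∀ k < n, bl.flatten.count k % 2 = 0) (hodd : bl.length % 2 = 1)
    (hF : ∀ A ∈ F, ∀ i ∈ A.vars, i < n) (hFs : ∀ A ∈ F, A.size ≤ 6 * 4 ^ k)
    (hK : ∀ u ∈ bl, parF k u ∈ F) :
    ∃ π, ERefutes Φ F π ∧ (∀ A ∈ π, A.size ≤ κ * (6 * 4 ^ k + 30)) ∧
      π.length ≤ F.length + κ * (2 * ((bl.flatten.length + 1) * (n + 1)) + (n + 1) +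
        bl.length * 2 ^ (k + 1) + bl.length + 2) := by
  set s := bl.flatten with hs
  have hs' : ∀ y ∈ s, y < n := by
    intro y hy
    obtain ⟨u, hu, hyu⟩ := List.mem_flatten.mp hy
    exact hlt u hu y hyu
  set t := (s.length + 1) * (n + 1) with ht
  have h1 := edefs Φ n n s F hn le_rfl hs' hF t
  have h2 := mem_DL n n s F t
  obtain ⟨π', g1, g2, g3, g4⟩ := wholeX (n' := n) hS (M := 6 * 4 ^ k + 30) k hlt (by omega) hW hn
    heven hodd {A | A ∈ DL n n s F t} (by
      intro j hj k hk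
      have h3 : (j * (n + 1) + k) / (n + 1) = j := by
        rw [Nat.mul_comm, Nat.mul_add_div (by omega), Nat.div_eq_of_lt (by omega), add_zero]
      have h4 : (j * (n + 1) + k) % (n + 1) = k := by
        rw [Nat.mul_comm, Nat.mul_add_mod, Nat.mod_eq_of_lt (by omega)]
      have h5 : j * (n + 1) + k < t := by
        have : j * (n + 1) ≤ s.length * (n + 1) := Nat.mul_le_mul_right _ hj
        have h6 : t = s.length * (n + 1) + (n + 1) := by rw [ht]; ring
        omega
      have h6 := h2.2 _ h5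
      rwa [h3, h4] at h6) (fun u hu => h2.1 _ (hK u hu))
  obtain ⟨π, e1, e2, e3, e4, e5⟩ := h1.join g1
  refine ⟨π, ⟨e1, e3 _ (g4 _ rfl)⟩, ?_, ?_⟩
  · intro A hA
    rcases e4 A hA with h | h
    · have h3 : A.size ≤ 6 * 4 ^ k + 30 := by
        have h4 : ∀ t, ∀ B ∈ DL n n s F t, B.size ≤ 6 * 4 ^ k + 30 := by
          intro t
          induction t with
          | zero =>
            intro B hB
            have := hFs B hB
            omega
          | succ t ih =>
            intro B hB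
            rcases List.mem_cons.mp hB with rfl | hB
            · have := size_dfn n n s (t / (n + 1)) (t % (n + 1))
              omega
            · exact ih B hB
        exact h4 t A h
      exact h3.trans (Nat.le_mul_of_pos_left _ hκ)
    · exact g2 A h
  · rw [DL_length] at e5
    have h3 : t ≤ κ * t := Nat.le_mul_of_pos_left _ hκ
    have g3' : π'.length ≤ κ * (t + (n + 1) + bl.length * 2 ^ (k + 1) + bl.length + 2) := g3
    have h7 : κ * (2 * t + (n + 1) + bl.length * 2 ^ (k + 1) + bl.length + 2) =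
        κ * t + κ * (t + (n + 1) + bl.length * 2 ^ (k + 1) + bl.length + 2) := by ring
    rw [h7]
    have e5' : π.length ≤ t + F.length + π'.length := e5
    omega

section

open Finset Classical

variable {N D q : ℕ}

/-- **Extended Frege refutations of the formulas for the parities.** -/
theorem upper_tsf (hS : SysX Φ κ) (hκ : 1 ≤ κ)
    (f : Fin (N + 1) × Fin D → Fin (N + 1)) (hq : 0 < q) (hE : Even N) {n k : ℕ}
    (hn : n = Fintype.card (Ed N D × Fin q)) (hk : ∀ v, (Uv f q v).card ≤ 2 ^ k) :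
    ∃ π, ERefutes Φ (tsf k f q) π ∧ (∀ A ∈ π, A.size ≤ κ * (6 * 4 ^ k + 30)) ∧
      π.length ≤ (N + 1) + κ * (2 * ((2 * n + 1) * (n + 1)) + (n + 1) +
        (N + 1) * 2 ^ (k + 1) + (N + 1) + 2) := by
  have hNn : N + 1 ≤ n := by
    rw [hn, Fintype.card_prod, Fintype.card_sum, Fintype.card_fin, Fintype.card_fin]
    calc N + 1 ≤ (N + 1 + Fintype.card (Fin (N + 1) × Fin D)) * 1 := by omega
      _ ≤ _ := Nat.mul_le_mul_left _ hq
  obtain ⟨π, h1, h2, h3⟩ := upperX (bl := blocks f q) (n := n) hS hκ k (tsf k f q)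
    (by
      intro u hu y hy
      obtain ⟨v, _, rfl⟩ := List.mem_map.mp hu
      obtain ⟨p, _, rfl⟩ := List.mem_map.mp hy
      rw [hn]
      exact (Fintype.equivFin _ p).isLt)
    (by
      intro u hu
      obtain ⟨v, _, rfl⟩ := List.mem_map.mp hu
      rw [length_ul]
      exact hk v)
    (by omega)
    (by
      intro k hk
      rw [hn] at hk
      exact even_count f k hk)
    (by
      rw [length_blocks]
      obtain ⟨x, hx⟩ := hE
      omega)
    (by
      intro A hA i hi
      obtain ⟨v, rfl⟩ := mem_tsf.mp hA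
      rcases vars_parF_sub k _ i hi with rfl | hi
      · omega
      · obtain ⟨p, _, rfl⟩ := List.mem_map.mp hi
        rw [hn]
        exact (Fintype.equivFin _ p).isLt)
    (by
      intro A hA
      obtain ⟨v, rfl⟩ := mem_tsf.mp hA
      have := size_parF k ((Uv f q v).toList.map num)
      show (parF k ((Uv f q v).toList.map num)).size ≤ _
      omega)
    (by
      intro u hu
      obtain ⟨v, _, rfl⟩ := List.mem_map.mp hu
      exact mem_tsf.mpr ⟨v, rfl⟩)
  refine ⟨π, h1, h2, h3.trans ?_⟩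
  have h4 : (tsf k f q).length = N + 1 := by
    unfold tsf
    rw [List.length_map, Finset.length_toList, card_univ, Fintype.card_fin]
  have h5 := length_flatten (q := q) f
  rw [← hn] at h5
  rw [h4, length_blocks]
  refine Nat.add_le_add le_rfl (Nat.mul_le_mul_left κ ?_)
  have h6 : ((blocks f q).flatten.length + 1) * (n + 1) ≤ (2 * n + 1) * (n + 1) :=
    Nat.mul_le_mul_right _ (by omega)
  omega

end

end Pool.Agent.T9h49.QS
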