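import Pool.Agent.T9h82.QL.Fin
import Pool.Agent.T9h49.QS.XUpper
import Pool.Agent.T9h49.QS.Defs

/-!
# The separation
-/

set_option autoImplicit false
set_option linter.unusedSectionVars false

namespace Pool.Agent.T9h49.QS

open Finset Classical
open Pool.Agent.T9h49.RK (PForm Rule Derives Refutes Ed Inc par outd indeg num num_inj sizeL Unsat
  Uv Uv_nonempty tse mem_tse cl tse_clause tse_unsat card_Uv pull ev_pull Fm)
open Pool.Agent.T9h90.FT (tailW vars_tse Wt bf Wt_pull Wt_mono)
open Pool.Agent.T9h82.SL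
open Pool.Agent.T9h82.QL
open Pool.Agent.T9h90.EF (Frege ERefutes upper_tse)

section

variable {P : Type} [Fintype P]

theorem cut_ext (x : P → Bool) :
    cut (Fintype.card P) (T9h49.RK.ext x) = T9h49.RK.ext x := by
  funext i
  by_cases h : i < Fintype.card P
  · simp [cut, h]
  · have h2 : T9h49.RK.ext x i = false := by
      unfold T9h49.RK.ext
      rw [dif_neg]
      rintro ⟨p, rfl⟩
      exact h (num_lt p)
    simp [cut, h2]

/-- the tail of a line which is short on the first variables -/
theorem Wt_cut {s d t : ℕ} (ht : 1 ≤ t) (A : PForm)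
    (h : Short s d (fun a => A.eval (cut (Fintype.card P) a))) {lam : ℝ}
    (hl : ((d + 216000 * Nat.sqrt (s * t) : ℕ) : ℝ) < lam) :
    tailW (Fintype.card P) A lam ≤ (1 / 4) ^ t := by
  rw [← Wt_pull]
  obtain ⟨T, _, h2, h3⟩ := h.toFT (univ : Finset P) (fun _ => false)
  have h4 := close_tree (fun r hr => close_evalS (X := P) ht r hr) T d h2
  have h5 := Wt_of_close h4 hl
  have e : (fun x : P → Bool => bi (Pool.Agent.T9h82.SL.evF x T)) = bf (pull A : Fm P) := by
    funext x
    have e2 : mixa univ (fun _ => false) x = x := by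
      funext z
      simp [mixa]
    rw [h3]
    show bi (A.eval (cut (Fintype.card P) (T9h49.RK.ext (mixa univ (fun _ => false) x)))) = _
    rw [e2, cut_ext]
    unfold bf bi
    rw [ev_pull]
  rw [e] at h5
  refine h5.trans (le_of_eq ?_)
  rw [← pow_mul, mul_comm, pow_mul]
  norm_num

end

theorem sqrt_bound {c x : ℝ} (hc : 0 < c) (hx : 0 ≤ x) {s t : ℕ}
    (hst : (s : ℝ) * t ≤ c ^ 2 / 10 ^ 12 * x ^ 2) :
    ((Nat.sqrt (s * t) : ℕ) : ℝ) ≤ c * x / 10 ^ 6 := by
  have h3 : ((Nat.sqrt (s * t) : ℕ) : ℝ) ^ 2 ≤ s * t := by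
    have := Nat.sqrt_le' (s * t)
    exact_mod_cast this
  apply le_of_sq_le_sq _ (by positivity)
  refine h3.trans (hst.trans (le_of_eq ?_))
  ring

/-- **Lower bound.** -/
theorem lower (r Δ : ℕ) : ∃ ε : ℝ, 0 < ε ∧ ∃ N0 : ℕ, ∀ N q : ℕ, N0 ≤ N → 1 ≤ q →
    ∀ f : Fin (N + 1) × Fin (16 * 2) → Fin (N + 1),
      (∀ A : Finset (Fin (N + 1)), N + 1 < 4 * A.card → 2 * A.card ≤ N + 1 →
        N + 1 ≤ 2 * outd f A) → (∀ v, indeg f v ≤ Δ) → ∀ F : List PForm,
      (∀ A ∈ F, ∃ v, ∀ x : Ed N (16 * 2) × Fin q → Bool, par (Inc f) v x = 1 →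
        A.eval (T9h49.RK.ext x) = true) →
      ∀ Φ : Set Rule, (∀ ρ ∈ Φ, ρ.Sound ∧ ρ.prem.length ≤ r) → ∀ π : List PForm,
        Refutes Φ F π →
        (∀ A ∈ π, (∃ d s : ℕ, (d : ℝ) ≤ ε * ((N + 1 : ℕ) * q) ∧
            (s : ℝ) ≤ ε * ((N + 1 : ℕ) * q ^ 2) ∧
            Short s d (fun a => A.eval (cut (33 * (N + 1) * q) a))) ∨
          tailW (33 * (N + 1) * q) A (ε * ((N + 1 : ℕ) * q)) ≤
            2 ^ (-(((N + 1 : ℕ) : ℝ) / ε))) →
        2 ^ (N + 1) ≤ π.length := by
  obtain ⟨c, hc0, hc1, N0, hlow⟩ := low r Δ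
  obtain ⟨ε, hε⟩ : ∃ ε : ℝ, ε = c ^ 2 / 10 ^ 15 := ⟨_, rfl⟩
  have hε0 : 0 < ε := by rw [hε]; positivity
  have hεc : ε ≤ c / 10 ^ 15 := by
    rw [hε]
    apply div_le_div_of_nonneg_right _ (by positivity)
    nlinarith
  have hε1 : ε ≤ 1 / 10 ^ 15 := by
    refine hεc.trans ?_
    apply div_le_div_of_nonneg_right _ (by positivity)
    linarith
  refine ⟨ε, hε0, N0 + 3, ?_⟩
  intro N q hN hq f hf1 hf2 F hF Φ hΦ π hπ hl
  have hqR : (1 : ℝ) ≤ q := by exact_mod_cast hq
  have hcast : (((33 * (N + 1) : ℕ)) : ℝ) = 33 * ((N + 1 : ℕ) : ℝ) := by push_cast; ring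
  have hcard : Fintype.card (Ed N (16 * 2) × Fin q) = 33 * (N + 1) * q := by
    rw [card_var]
    ring
  set mR : ℝ := ((N + 1 : ℕ) : ℝ) with hmR
  have hm0 : 0 < mR := by rw [hmR]; positivity
  have h2 := hlow N (33 * (N + 1)) q 0 0 (by omega) rfl hq
    (by
      push_cast
      positivity)
    (by
      push_cast
      positivity)
    f hf1 hf2 F hF Φ hΦ π hπ
    (by
      intro A hA
      left
      rw [hcast]
      rcases hl A hA with ⟨d, s, h3, h4, h5⟩ | h3
      · have h6 := Wt_cut (P := Ed N (16 * 2) × Fin q) (t := 99 * (N + 1)) (by omega) A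
          (s := s) (d := d) (by rw [hcard]; exact h5) (lam := c * (33 * mR * q)) (by
            have h7 := sqrt_bound (c := c) (x := mR * q) (s := s) (t := 99 * (N + 1)) hc0
              (by positivity) (by
                have e1 : (((99 * (N + 1) : ℕ)) : ℝ) = 99 * mR := by
                  rw [hmR]; push_cast; ring
                rw [e1]
                calc (s : ℝ) * (99 * mR) ≤ (ε * (mR * q ^ 2)) * (99 * mR) :=
                      mul_le_mul_of_nonneg_right h4 (by positivity)
                  _ = c ^ 2 * (mR * q) ^ 2 * (99 / 10 ^ 15) := by rw [hε]; ring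
                  _ ≤ c ^ 2 * (mR * q) ^ 2 * (1 / 10 ^ 12) :=
                      mul_le_mul_of_nonneg_left (by norm_num) (by positivity)
                  _ = _ := by ring)
            have h8 : (d : ℝ) ≤ c * (mR * q) / 10 ^ 15 := by
              refine h3.trans ?_
              calc ε * (mR * q) ≤ c / 10 ^ 15 * (mR * q) :=
                    mul_le_mul_of_nonneg_right hεc (by positivity)
                _ = _ := by ring
            have h9 : 0 < c * (mR * q) := by positivity
            push_cast at h7 ⊢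
            linarith)
        rw [hcard] at h6
        refine h6.trans ((quarter_le _).trans ?_)
        apply Real.exp_le_exp.mpr
        rw [hmR]
        push_cast
        linarith
      · have h4 : tailW (33 * (N + 1) * q) A (c * (33 * mR * q)) ≤
            tailW (33 * (N + 1) * q) A (ε * (mR * q)) := by
          unfold tailW
          apply sum_le_sum
          intro S _
          split_ifs with h5 h6
          · exact le_refl _
          · exfalso
            apply h6
            refine le_trans ?_ h5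
            have : 0 < c * (mR * (q : ℝ)) := by positivity
            have h7 : ε * (mR * q) ≤ c / 10 ^ 15 * (mR * q) :=
              mul_le_mul_of_nonneg_right hεc (by positivity)
            nlinarith
          · positivity
          · exact le_refl _
        refine h4.trans (h3.trans ?_)
        rw [Real.rpow_def_of_pos (by norm_num)]
        apply Real.exp_le_exp.mpr
        have h5 := Real.log_two_gt_d9
        have h6 : 200 * mR ≤ mR / ε := by
          rw [le_div_iff₀ hε0]
          nlinarith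
        nlinarith)
  have h3 := two_pow_le_exp (m := N + 1) (M := 33 * (N + 1)) rfl
  have h4 := h3.trans h2
  exact_mod_cast h4

end Pool.Agent.T9h49.QS
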