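import Pool.Agent.T9h90.EF.Upper
import Pool.Agent.T9h82.SL.BXor

/-!
# The derivation at a vertex from a formula for the parity
-/

set_option autoImplicit false

namespace Pool.Agent.T9h49.QS

open Pool.Agent.T9h49.RK
open Pool.Agent.T9h90.EF
open Pool.Agent.T9h82.SL (parF xorF size_parF)

/-- further schemes -/
def schemesX : List (List PForm × PForm) :=
  [([], eqv fs (xr (v 0) (v 0))),
   ([st true (v 0) (v 1) (v 2)], eqv (v 2) (xr (v 0) (v 1))),
   ([eqv (v 0) (xr (v 2) (v 1)), eqv (v 3) (xr (v 4) (v 2))],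
     eqv (xr (v 0) (v 3)) (xr (v 4) (v 1))),
   ([v 0, eqv (v 0) (xr (v 1) (v 2))], eqp true (v 1) (v 2)),
   ([], st true (v 0) fs (v 0)),
   ([], st true fs (v 0) (v 0)),
   ([st true (v 0) (v 1) (v 2)], st true (xr (v 0) (v 3)) (xr (v 1) (v 3)) (v 2)),
   ([st true (v 0) (v 1) (v 2)], st true (xr (v 3) (v 0)) (xr (v 3) (v 1)) (v 2)),
   ([], .neg fs),
   ([.neg (v 0), .neg (v 1)], .neg (xr (v 0) (v 1)))]

theorem schemesX_sound : ∀ s ∈ schemesX, ∀ a : ℕ → Bool, (∀ B ∈ s.1, B.eval a = true) →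
    s.2.eval a = true := by
  intro s hs a h
  simp only [schemesX, List.mem_cons, List.not_mem_nil, or_false] at hs
  rcases hs with rfl | rfl | rfl | rfl | rfl | rfl | rfl | rfl | rfl | rfl
  all_goals
    simp only [List.mem_cons, List.not_mem_nil, or_false, forall_eq_or_imp, forall_eq,
      eval_st, eval_eqv, eval_xr, eval_eqp, eval_fs, PForm.eval, v] at h ⊢
  · cases a 0 <;> decide
  · revert h
    cases a 0 <;> cases a 1 <;> cases a 2 <;> decide
  · revert h
    cases a 0 <;> cases a 1 <;> cases a 2 <;> cases a 3 <;> cases a 4 <;> decide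
  · revert h
    cases a 0 <;> cases a 1 <;> cases a 2 <;> decide
  · cases a 0 <;> decide
  · cases a 0 <;> decide
  · revert h
    cases a 0 <;> cases a 1 <;> cases a 2 <;> cases a 3 <;> decide
  · revert h
    cases a 0 <;> cases a 1 <;> cases a 2 <;> cases a 3 <;> decide
  · decide
  · revert h
    cases a 0 <;> cases a 1 <;> decide

/-- all the inferences have derivations with at most `κ` lines -/
structure SysX (Φ : Set Rule) (κ : ℕ) : Prop where
  sys : Sys Φ κ
  all : ∀ s ∈ schemesX, Inf Φ κ s.1 s.2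

theorem sysX_exists {Φ : Set Rule} (hΦ : Frege Φ) : ∃ κ, 1 ≤ κ ∧ SysX Φ κ := by
  obtain ⟨κ, h⟩ := inf_list hΦ schemes schemes_sound
  obtain ⟨κ', h'⟩ := inf_list hΦ schemesX schemesX_sound
  exact ⟨κ + κ' + 1, by omega, ⟨⟨fun s hs => (h s hs).mono (by omega)⟩,
    fun s hs => (h' s hs).mono (by omega)⟩⟩

variable {Φ : Set Rule} {κ : ℕ}

theorem SysX.use (hS : SysX Φ κ) {Γ : List PForm} {A : PForm} (hmem : (Γ, A) ∈ schemesX)
    (l : List PForm) {M : ℕ} (hM : 1 ≤ M) (hl : ∀ B ∈ l, B.size ≤ M) {Γ' : Set PForm} {A' : PForm}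
    (h1 : ∀ B ∈ Γ, B.subst (sl l) ∈ Γ') (h2 : A.subst (sl l) = A') :
    Ded Φ (κ * M) κ Γ' {A'} := by
  subst h2
  refine (hS.all _ hmem (sl l) M (size_sl hM hl)).mono le_rfl le_rfl ?_ (fun _ h => h)
  rintro B ⟨p, hp, rfl⟩
  exact h1 p hp

variable {Γ : Set PForm} {M : ℕ}

theorem SysX.x0 (hS : SysX Φ κ) (hM : 1 ≤ M) {T : PForm} (hT : T.size ≤ M) :
    Ded Φ (κ * M) κ Γ {eqv ff (xr T T)} := by
  refine hS.use (Γ := []) (A := eqv fs (xr (v 0) (v 0))) (by simp [schemesX]) [T] hM
    (by simp [hT]) (by simp) rfl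

theorem SysX.x1 (hS : SysX Φ κ) (hM : 1 ≤ M) {T' T y : PForm}
    (hs : ∀ C ∈ [T', T, y], C.size ≤ M) (h1 : st true T' T y ∈ Γ) :
    Ded Φ (κ * M) κ Γ {eqv y (xr T' T)} := by
  refine hS.use (Γ := [st true (v 0) (v 1) (v 2)]) (A := eqv (v 2) (xr (v 0) (v 1)))
    (by simp [schemesX]) [T', T, y] hM hs ?_ rfl
  simp only [List.mem_cons, List.not_mem_nil, or_false, forall_eq]
  exact h1

theorem SysX.x2 (hS : SysX Φ κ) (hM : 1 ≤ M) {A B T1 T2 T3 : PForm}
    (hs : ∀ C ∈ [A, T1, T2, B, T3], C.size ≤ M) (h1 : eqv A (xr T2 T1) ∈ Γ)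
    (h2 : eqv B (xr T3 T2) ∈ Γ) : Ded Φ (κ * M) κ Γ {eqv (xr A B) (xr T3 T1)} := by
  refine hS.use (Γ := [eqv (v 0) (xr (v 2) (v 1)), eqv (v 3) (xr (v 4) (v 2))])
    (A := eqv (xr (v 0) (v 3)) (xr (v 4) (v 1)))
    (by simp [schemesX]) [A, T1, T2, B, T3] hM hs ?_ rfl
  simp only [List.mem_cons, List.not_mem_nil, or_false, forall_eq_or_imp, forall_eq]
  exact ⟨h1, h2⟩

theorem SysX.x3 (hS : SysX Φ κ) (hM : 1 ≤ M) {A T' T : PForm}
    (hs : ∀ C ∈ [A, T', T], C.size ≤ M) (h1 : A ∈ Γ) (h2 : eqv A (xr T' T) ∈ Γ) :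
    Ded Φ (κ * M) κ Γ {eqp true T' T} := by
  refine hS.use (Γ := [v 0, eqv (v 0) (xr (v 1) (v 2))]) (A := eqp true (v 1) (v 2))
    (by simp [schemesX]) [A, T', T] hM hs ?_ rfl
  simp only [List.mem_cons, List.not_mem_nil, or_false, forall_eq_or_imp, forall_eq]
  exact ⟨h1, h2⟩

theorem SysX.y1 (hS : SysX Φ κ) (hM : 1 ≤ M) {x : PForm} (hx : x.size ≤ M) :
    Ded Φ (κ * M) κ Γ {st true x ff x} := by
  refine hS.use (Γ := []) (A := st true (v 0) fs (v 0)) (by simp [schemesX]) [x] hM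
    (by simp [hx]) (by simp) rfl

theorem SysX.y2 (hS : SysX Φ κ) (hM : 1 ≤ M) {x : PForm} (hx : x.size ≤ M) :
    Ded Φ (κ * M) κ Γ {st true ff x x} := by
  refine hS.use (Γ := []) (A := st true fs (v 0) (v 0)) (by simp [schemesX]) [x] hM
    (by simp [hx]) (by simp) rfl

theorem SysX.y3 (hS : SysX Φ κ) (hM : 1 ≤ M) {A' A x B : PForm}
    (hs : ∀ C ∈ [A', A, x, B], C.size ≤ M) (h1 : st true A' A x ∈ Γ) :
    Ded Φ (κ * M) κ Γ {st true (xr A' B) (xr A B) x} := by
  refine hS.use (Γ := [st true (v 0) (v 1) (v 2)])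
    (A := st true (xr (v 0) (v 3)) (xr (v 1) (v 3)) (v 2))
    (by simp [schemesX]) [A', A, x, B] hM hs ?_ rfl
  simp only [List.mem_cons, List.not_mem_nil, or_false, forall_eq]
  exact h1

theorem SysX.y4 (hS : SysX Φ κ) (hM : 1 ≤ M) {A' A x B : PForm}
    (hs : ∀ C ∈ [A', A, x, B], C.size ≤ M) (h1 : st true A' A x ∈ Γ) :
    Ded Φ (κ * M) κ Γ {st true (xr B A') (xr B A) x} := by
  refine hS.use (Γ := [st true (v 0) (v 1) (v 2)])
    (A := st true (xr (v 3) (v 0)) (xr (v 3) (v 1)) (v 2))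
    (by simp [schemesX]) [A', A, x, B] hM hs ?_ rfl
  simp only [List.mem_cons, List.not_mem_nil, or_false, forall_eq]
  exact h1

theorem SysX.z0 (hS : SysX Φ κ) (hM : 1 ≤ M) : Ded Φ (κ * M) κ Γ {.neg ff} := by
  refine hS.use (Γ := []) (A := .neg fs) (by simp [schemesX]) [] hM
    (by simp) (by simp) rfl

theorem SysX.z1 (hS : SysX Φ κ) (hM : 1 ≤ M) {A B : PForm} (hA : A.size ≤ M)
    (hB : B.size ≤ M) (h1 : PForm.neg A ∈ Γ) (h2 : PForm.neg B ∈ Γ) :
    Ded Φ (κ * M) κ Γ {.neg (xr A B)} := by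
  refine hS.use (Γ := [.neg (v 0), .neg (v 1)]) (A := .neg (xr (v 0) (v 1)))
    (by simp [schemesX]) [A, B] hM (by simp [hA, hB]) ?_ rfl
  simp only [List.mem_cons, List.not_mem_nil, or_false, forall_eq_or_imp, forall_eq]
  exact ⟨h1, h2⟩

/-- the number of inferences in the tree -/
def lc : ℕ → ℕ
  | 0 => 1
  | k + 1 => 2 * lc k + 1

theorem lc_eq (k : ℕ) : lc k + 1 = 2 ^ (k + 1) := by
  induction k with
  | zero => rfl
  | succ k ih =>
    rw [pow_succ, ← ih]
    simp only [lc]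
    ring

/-- along the tree of the formula -/
theorem tree (hS : SysX Φ κ) (T : ℕ → PForm) (hT : ∀ i, (T i).size ≤ M) :
    ∀ (k : ℕ) (l : List ℕ) (j : ℕ), l.length ≤ 2 ^ k → 6 * 4 ^ k ≤ M →
      (∀ i (hi : i < l.length), st true (T (j + i + 1)) (T (j + i)) (.var l[i]) ∈ Γ) →
      Ded Φ (κ * M) (lc k * κ) Γ {eqv (parF k l) (xr (T (j + l.length)) (T j))}
  | 0, [], j, _, hM, _ => by
      have h1 := hT j
      refine (hS.x0 (M := M) (by omega) (T := T j) (by omega)).mono le_rfl (by simp [lc])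
        (fun _ h => h) ?_
      intro A hA
      simpa [parF, ff] using hA
  | 0, [y], j, _, hM, hΓ => by
      have h1 := hT j
      have h2 := hT (j + 1)
      refine (hS.x1 (M := M) (by omega) (T' := T (j + 1)) (T := T j) (y := .var y) ?_
        (by simpa using hΓ 0 (by simp))).mono le_rfl (by simp [lc]) (fun _ h => h) ?_
      · simp only [List.mem_cons, List.not_mem_nil, or_false, forall_eq_or_imp, forall_eq,
          PForm.size]
        refine ⟨by omega, by omega, by omega⟩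
      · intro A hA
        simpa [parF] using hA
  | 0, _ :: _ :: _, _, h, _, _ => by simp at h
  | k + 1, l, j, hl, hM, hΓ => by
      have hM' : 6 * 4 ^ k ≤ M := le_trans (by rw [pow_succ]; omega) hM
      have e1 : (l.take (2 ^ k)).length + (l.drop (2 ^ k)).length = l.length := by
        rw [← List.length_append, List.take_append_drop]
      have h1 := tree hS T hT k (l.take (2 ^ k)) j
        (by rw [List.length_take]; exact min_le_left _ _) hM' (by
          intro i hi
          rw [List.getElem_take]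
          exact hΓ i (by omega))
      have h2 := tree hS T hT k (l.drop (2 ^ k)) (j + (l.take (2 ^ k)).length)
        (by
          rw [List.length_drop]
          rw [pow_succ] at hl
          omega) hM' (by
          intro i hi
          have e2 : (l.take (2 ^ k)).length = 2 ^ k := by
            rw [List.length_take]
            rw [List.length_drop] at hi
            omega
          rw [List.getElem_drop, e2]
          have h3 := hΓ (2 ^ k + i) (by
            rw [List.length_drop] at hi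
            omega)
          rwa [← Nat.add_assoc] at h3)
      rw [Nat.add_assoc, e1] at h2
      have hA := size_parF k (l.take (2 ^ k))
      have hB := size_parF k (l.drop (2 ^ k))
      have hT1 := hT j
      have hT2 := hT (j + (l.take (2 ^ k)).length)
      have hT3 := hT (j + l.length)
      have h3 := hS.x2 (M := M) (by omega)
        (Γ := {eqv (parF k (l.take (2 ^ k))) (xr (T (j + (l.take (2 ^ k)).length)) (T j))} ∪
          {eqv (parF k (l.drop (2 ^ k))) (xr (T (j + l.length))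
            (T (j + (l.take (2 ^ k)).length)))})
        (A := parF k (l.take (2 ^ k))) (B := parF k (l.drop (2 ^ k)))
        (T1 := T j) (T2 := T (j + (l.take (2 ^ k)).length)) (T3 := T (j + l.length)) (by
          simp only [List.mem_cons, List.not_mem_nil, or_false, forall_eq_or_imp, forall_eq]
          refine ⟨by omega, by omega, by omega, by omega, by omega⟩)
        (Or.inl rfl) (Or.inr rfl)
      refine ((h1.union h2).cut h3).mono le_rfl ?_ (fun _ h => h) (fun _ h => h)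
      simp only [lc]
      exact le_of_eq (by ring)

/-- the parity condition of a vertex -/
theorem vertexX (hS : SysX Φ κ) (k : ℕ) (u : List ℕ) (hu : u.length ≤ 2 ^ k)
    (hM : 6 * 4 ^ k ≤ M) (T : ℕ → PForm) (hT : ∀ i, (T i).size ≤ M)
    (hΓ : ∀ i (hi : i < u.length), st true (T (i + 1)) (T i) (.var u[i]) ∈ Γ)
    (hK : parF k u ∈ Γ) :
    Ded Φ (κ * M) (2 ^ (k + 1) * κ) Γ {eqp true (T u.length) (T 0)} := by
  have h1 := tree hS T hT k u 0 hu hM (Γ := Γ) (by
    intro i hi
    simpa using hΓ i hi)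
  rw [Nat.zero_add] at h1
  have hA := size_parF k u
  have hT1 := hT u.length
  have hT2 := hT 0
  have h2 := hS.x3 (M := M) (by omega)
    (Γ := Γ ∪ {eqv (parF k u) (xr (T u.length) (T 0))}) (A := parF k u) (T' := T u.length)
    (T := T 0) (by
      simp only [List.mem_cons, List.not_mem_nil, or_false, forall_eq_or_imp, forall_eq]
      refine ⟨by omega, by omega, by omega⟩) (Or.inl hK) (Or.inr rfl)
  refine (h1.trans h2).mono le_rfl ?_ (fun _ h => h) (fun _ h => Or.inr h)
  have h3 := lc_eq k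
  rw [← h3, Nat.add_mul, Nat.one_mul]

end Pool.Agent.T9h49.QS
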